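import Pool.Agent.V1117.Sl2

/-!
# A Leonard pair with `β = 2` not coming from the equitable basis of `sl2`
-/

set_option autoImplicit false

namespace Pool.Agent.Results.MP_d63bef_al.NotEquitable

open Matrix Module

section defs

variable {K : Type*} [Field K]

/-- Irreducible tridiagonal matrices. -/
def IrredTridiag {n : ℕ} (M : Matrix (Fin n) (Fin n) K) : Prop :=
  (∀ i j : Fin n, (i : ℕ) + 1 < j ∨ (j : ℕ) + 1 < i → M i j = 0) ∧
    ∀ i j : Fin n, (i : ℕ) + 1 = j ∨ (j : ℕ) + 1 = i → M i j ≠ 0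

/-- The matrix of `A` in the basis formed by the columns of the invertible matrix `P`. -/
def conj {n : ℕ} (P : (Matrix (Fin n) (Fin n) K)ˣ) (A : Matrix (Fin n) (Fin n) K) :
    Matrix (Fin n) (Fin n) K :=
  ((P⁻¹ : (Matrix (Fin n) (Fin n) K)ˣ) : Matrix (Fin n) (Fin n) K) * A *
    (P : Matrix (Fin n) (Fin n) K)

/-- Leonard pairs on `K^{d+1}`. -/
def IsLeonardPair {d : ℕ} (A B : Matrix (Fin (d + 1)) (Fin (d + 1)) K) : Prop :=
  (∃ P, IrredTridiag (conj P A) ∧ (conj P B).IsDiag) ∧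
    ∃ P, IrredTridiag (conj P B) ∧ (conj P A).IsDiag

/-- `β = 2`: for the eigenvalues `θ_0, …, θ_d` of `A` in a basis as in (ii), the ratio
`(θ_{i-2} - θ_{i+1}) / (θ_{i-1} - θ_i)` is `3` for `2 ≤ i ≤ d - 1`. -/
def BetaIsTwo {d : ℕ} (A B : Matrix (Fin (d + 1)) (Fin (d + 1)) K) : Prop :=
  ∃ (P : (Matrix (Fin (d + 1)) (Fin (d + 1)) K)ˣ) (θ : Fin (d + 1) → K),
    IrredTridiag (conj P B) ∧ conj P A = Matrix.diagonal θ ∧
    ∀ (i : ℕ) (_ : 2 ≤ i) (hi : i + 1 ≤ d),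
      (θ ⟨i - 2, by omega⟩ - θ ⟨i + 1, by omega⟩) / (θ ⟨i - 1, by omega⟩ - θ ⟨i, by omega⟩) = 3

/-- `x, y, z` satisfy the relations of the equitable basis and act irreducibly. -/
structure IsIrredModule {n : ℕ} (x y z : Matrix (Fin n) (Fin n) K) : Prop where
  xy : x * y - y * x = (2 : K) • x + (2 : K) • y
  yz : y * z - z * y = (2 : K) • y + (2 : K) • z
  zx : z * x - x * z = (2 : K) • z + (2 : K) • x
  irred : ∀ W : Submodule K (Fin n → K), (∀ v ∈ W, x *ᵥ v ∈ W) → (∀ v ∈ W, y *ᵥ v ∈ W) →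
    (∀ v ∈ W, z *ᵥ v ∈ W) → W = ⊥ ∨ W = ⊤

variable (K) in
/-- `Q1` over the field `K`. -/
def Question : Prop :=
  ∀ (d : ℕ) (A B : Matrix (Fin (d + 1)) (Fin (d + 1)) K), IsLeonardPair A B → BetaIsTwo A B →
    ∃ x y z : Matrix (Fin (d + 1)) (Fin (d + 1)) K, IsIrredModule x y z ∧
      (∃ a₀ a₁ a₂ a₃ : K, A = a₀ • 1 + a₁ • x + a₂ • y + a₃ • (x * y)) ∧
      (∃ b₀ b₁ b₂ b₃ : K, B = b₀ • 1 + b₁ • y + b₂ • z + b₃ • (y * z))

end defs

section bidiag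

variable {K : Type*} [Field K]

/-- Lower bidiagonal matrices. -/
def LB (t0 t1 t2 t3 c0 c1 c2 : K) : Matrix (Fin 4) (Fin 4) K :=
  !![t0, 0, 0, 0; c0, t1, 0, 0; 0, c1, t2, 0; 0, 0, c2, t3]

/-- Upper bidiagonal matrices. -/
def UB (s0 s1 s2 s3 g0 g1 g2 : K) : Matrix (Fin 4) (Fin 4) K :=
  !![s0, g0, 0, 0; 0, s1, g1, 0; 0, 0, s2, g2; 0, 0, 0, s3]

theorem LB_mul (t0 t1 t2 t3 u0 u1 u2 u3 c0 c1 c2 : K) :
    LB t0 t1 t2 t3 c0 c1 c2 * LB u0 u1 u2 u3 c0 c1 c2 =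
    !![t0 * u0, 0, 0, 0; c0 * u0 + t1 * c0, t1 * u1, 0, 0;
      c1 * c0, c1 * u1 + t2 * c1, t2 * u2, 0; 0, c2 * c1, c2 * u2 + t3 * c2, t3 * u3] := by
  ext i j
  fin_cases i <;> fin_cases j <;> simp [LB, Matrix.mul_apply, Fin.sum_univ_four]

theorem LB_sub (t0 t1 t2 t3 c0 c1 c2 p : K) :
    LB t0 t1 t2 t3 c0 c1 c2 - p • 1 = LB (t0 - p) (t1 - p) (t2 - p) (t3 - p) c0 c1 c2 := by
  ext i j
  fin_cases i <;> fin_cases j <;> simp [LB]

theorem trace_LB (t0 t1 t2 t3 c0 c1 c2 : K) :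
    (LB t0 t1 t2 t3 c0 c1 c2).trace = t0 + t1 + t2 + t3 := by
  simp [LB, Matrix.trace, Fin.sum_univ_four]

theorem trace_UB (t0 t1 t2 t3 c0 c1 c2 : K) :
    (UB t0 t1 t2 t3 c0 c1 c2).trace = t0 + t1 + t2 + t3 := by
  simp [UB, Matrix.trace, Fin.sum_univ_four]

theorem trace1 (t0 t1 t2 t3 c0 c1 c2 s0 s1 s2 s3 g0 g1 g2 : K) :
    (LB t0 t1 t2 t3 c0 c1 c2 * UB s0 s1 s2 s3 g0 g1 g2).trace =
      t0 * s0 + t1 * s1 + t2 * s2 + t3 * s3 + (c0 * g0 + c1 * g1 + c2 * g2) := by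
  simp [LB, UB, Matrix.trace, Fin.sum_univ_four]
  ring

theorem trace2 (t0 t1 t2 t3 c0 c1 c2 s0 s1 s2 s3 g0 g1 g2 : K) :
    (LB t0 t1 t2 t3 c0 c1 c2 * LB t0 t1 t2 t3 c0 c1 c2 * UB s0 s1 s2 s3 g0 g1 g2).trace =
      t0 ^ 2 * s0 + t1 ^ 2 * s1 + t2 ^ 2 * s2 + t3 ^ 2 * s3 +
      (c0 * g0 * (t0 + t1) + c1 * g1 * (t1 + t2) + c2 * g2 * (t2 + t3)) := by
  rw [LB_mul]
  simp [UB, Matrix.trace, Fin.sum_univ_four]
  ring

theorem four_roots {x p q r : K} (h : x * (x - p) * ((x - q) * (x - r)) = 0) :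
    x = 0 ∨ x = p ∨ x = q ∨ x = r := by
  rcases mul_eq_zero.mp h with h | h
  · rcases mul_eq_zero.mp h with h | h
    · exact Or.inl h
    · exact Or.inr (Or.inl (sub_eq_zero.mp h))
  · rcases mul_eq_zero.mp h with h | h
    · exact Or.inr (Or.inr (Or.inl (sub_eq_zero.mp h)))
    · exact Or.inr (Or.inr (Or.inr (sub_eq_zero.mp h)))

theorem diag_roots (t0 t1 t2 t3 c0 c1 c2 p q r : K)
    (h : LB t0 t1 t2 t3 c0 c1 c2 * (LB t0 t1 t2 t3 c0 c1 c2 - p • 1) *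
      ((LB t0 t1 t2 t3 c0 c1 c2 - q • 1) * (LB t0 t1 t2 t3 c0 c1 c2 - r • 1)) = 0) :
    (t0 = 0 ∨ t0 = p ∨ t0 = q ∨ t0 = r) ∧ (t1 = 0 ∨ t1 = p ∨ t1 = q ∨ t1 = r) ∧
    (t2 = 0 ∨ t2 = p ∨ t2 = q ∨ t2 = r) ∧ (t3 = 0 ∨ t3 = p ∨ t3 = q ∨ t3 = r) := by
  rw [LB_sub, LB_sub, LB_sub, LB_mul, LB_mul] at h
  have h0 := congrFun (congrFun h 0) 0
  have h1 := congrFun (congrFun h 1) 1
  have h2 := congrFun (congrFun h 2) 2
  have h3 := congrFun (congrFun h 3) 3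
  rw [Matrix.mul_apply, Fin.sum_univ_four] at h0 h1 h2 h3
  refine ⟨four_roots ?_, four_roots ?_, four_roots ?_, four_roots ?_⟩
  · simpa [-mul_eq_zero] using h0
  · simpa [-mul_eq_zero] using h1
  · simpa [-mul_eq_zero] using h2
  · simpa [-mul_eq_zero] using h3

theorem UB_mul (t0 t1 t2 t3 u0 u1 u2 u3 c0 c1 c2 : K) :
    UB t0 t1 t2 t3 c0 c1 c2 * UB u0 u1 u2 u3 c0 c1 c2 =
    !![t0 * u0, t0 * c0 + c0 * u1, c0 * c1, 0; 0, t1 * u1, t1 * c1 + c1 * u2, c1 * c2;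
      0, 0, t2 * u2, t2 * c2 + c2 * u3; 0, 0, 0, t3 * u3] := by
  ext i j
  fin_cases i <;> fin_cases j <;> simp [UB, Matrix.mul_apply, Fin.sum_univ_four]

theorem UB_sub (t0 t1 t2 t3 c0 c1 c2 p : K) :
    UB t0 t1 t2 t3 c0 c1 c2 - p • 1 = UB (t0 - p) (t1 - p) (t2 - p) (t3 - p) c0 c1 c2 := by
  ext i j
  fin_cases i <;> fin_cases j <;> simp [UB]

theorem diag_roots' (t0 t1 t2 t3 c0 c1 c2 p q r : K)
    (h : UB t0 t1 t2 t3 c0 c1 c2 * (UB t0 t1 t2 t3 c0 c1 c2 - p • 1) *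
      ((UB t0 t1 t2 t3 c0 c1 c2 - q • 1) * (UB t0 t1 t2 t3 c0 c1 c2 - r • 1)) = 0) :
    (t0 = 0 ∨ t0 = p ∨ t0 = q ∨ t0 = r) ∧ (t1 = 0 ∨ t1 = p ∨ t1 = q ∨ t1 = r) ∧
    (t2 = 0 ∨ t2 = p ∨ t2 = q ∨ t2 = r) ∧ (t3 = 0 ∨ t3 = p ∨ t3 = q ∨ t3 = r) := by
  rw [UB_sub, UB_sub, UB_sub, UB_mul, UB_mul] at h
  have h0 := congrFun (congrFun h 0) 0
  have h1 := congrFun (congrFun h 1) 1
  have h2 := congrFun (congrFun h 2) 2
  have h3 := congrFun (congrFun h 3) 3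
  rw [Matrix.mul_apply, Fin.sum_univ_four] at h0 h1 h2 h3
  refine ⟨four_roots ?_, four_roots ?_, four_roots ?_, four_roots ?_⟩
  · simpa [-mul_eq_zero] using h0
  · simpa [-mul_eq_zero] using h1
  · simpa [-mul_eq_zero] using h2
  · simpa [-mul_eq_zero] using h3

end bidiag

section core

variable {K : Type*} [Field K] [LinearOrder K] [IsStrictOrderedRing K]

theorem order (t0 t1 t2 t3 : K) (h0 : t0 = 0 ∨ t0 = 3 ∨ t0 = 8 ∨ t0 = 15)
    (h1 : t1 = 0 ∨ t1 = 3 ∨ t1 = 8 ∨ t1 = 15) (h2 : t2 = 0 ∨ t2 = 3 ∨ t2 = 8 ∨ t2 = 15)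
    (h3 : t3 = 0 ∨ t3 = 3 ∨ t3 = 8 ∨ t3 = 15) (hs : t0 + t1 + t2 + t3 = 26)
    (hd : t0 - 3 * t1 + 3 * t2 - t3 = 0) :
    (t0 = 0 ∧ t1 = 3 ∧ t2 = 8 ∧ t3 = 15) ∨ (t0 = 15 ∧ t1 = 8 ∧ t2 = 3 ∧ t3 = 0) := by
  rcases h0 with rfl | rfl | rfl | rfl <;> rcases h1 with rfl | rfl | rfl | rfl <;>
    rcases h2 with rfl | rfl | rfl | rfl <;>
    first
    | (exfalso; linarith)
    | (rcases h3 with rfl | rfl | rfl | rfl <;>
        first
        | (exfalso; linarith)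
        | (left; exact ⟨rfl, rfl, rfl, rfl⟩)
        | (right; exact ⟨rfl, rfl, rfl, rfl⟩))

theorem core (t0 t1 t2 t3 s0 s1 s2 s3 a0 a1 a2 a3 b0 b1 b2 b3 : K)
    (e0 : t0 = a0 + (a2 - a1) * 3 - a3 * 9) (e1 : t1 = a0 + (a2 - a1) * 1 - a3 * 1)
    (e2 : t2 = a0 + (a2 - a1) * (-1) - a3 * 1) (e3 : t3 = a0 + (a2 - a1) * (-3) - a3 * 9)
    (f0 : s0 = b0 + (b1 - b2) * 3 - b3 * 9) (f1 : s1 = b0 + (b1 - b2) * 1 - b3 * 1)
    (f2 : s2 = b0 + (b1 - b2) * (-1) - b3 * 1) (f3 : s3 = b0 + (b1 - b2) * (-3) - b3 * 9)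
    (ht : (t0 = 0 ∧ t1 = 3 ∧ t2 = 8 ∧ t3 = 15) ∨ (t0 = 15 ∧ t1 = 8 ∧ t2 = 3 ∧ t3 = 0))
    (hs : (s0 = 0 ∧ s1 = 3 ∧ s2 = 8 ∧ s3 = 15) ∨ (s0 = 15 ∧ s1 = 8 ∧ s2 = 3 ∧ s3 = 0))
    (T1 : t0 * s0 + t1 * s1 + t2 * s2 + t3 * s3 +
      (-12 * ((a1 + 3 * a3) * (b2 + 3 * b3)) + -16 * ((a1 + a3) * (b2 + b3)) +
        -12 * ((a1 - a3) * (b2 - b3))) = 32)
    (T2 : t0 ^ 2 * s0 + t1 ^ 2 * s1 + t2 ^ 2 * s2 + t3 ^ 2 * s3 +
      (-12 * ((a1 + 3 * a3) * (b2 + 3 * b3)) * (t0 + t1) +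
        -16 * ((a1 + a3) * (b2 + b3)) * (t1 + t2) +
        -12 * ((a1 - a3) * (b2 - b3)) * (t2 + t3)) = 64) : False := by
  have ha3 : a3 = -1 / 4 := by
    rcases ht with ⟨h0, h1, h2, h3⟩ | ⟨h0, h1, h2, h3⟩ <;> linarith
  have hb3 : b3 = -1 / 4 := by
    rcases hs with ⟨h0, h1, h2, h3⟩ | ⟨h0, h1, h2, h3⟩ <;> linarith
  subst ha3 hb3
  have key : (a1 + b2) ^ 2 - 4 * (a1 * b2) = -1 := by
    rcases ht with ⟨h0, h1, h2, h3⟩ | ⟨h0, h1, h2, h3⟩ <;>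
      rcases hs with ⟨g0, g1, g2, g3⟩ | ⟨g0, g1, g2, g3⟩ <;>
      rw [h0, h1, h2, h3, g0, g1, g2, g3] at T1 T2
    · have hS : a1 + b2 = 11 / 2 := by linarith
      have hP : a1 * b2 = 125 / 16 := by linarith
      rw [hS, hP]; norm_num
    · have hS : a1 + b2 = 1 / 2 := by linarith
      have hP : a1 * b2 = 5 / 16 := by linarith
      rw [hS, hP]; norm_num
    · have hS : a1 + b2 = 1 / 2 := by linarith
      have hP : a1 * b2 = 5 / 16 := by linarith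
      rw [hS, hP]; norm_num
    · have hS : a1 + b2 = -9 / 2 := by linarith
      have hP : a1 * b2 = 85 / 16 := by linarith
      rw [hS, hP]; norm_num
  nlinarith [sq_nonneg (a1 - b2)]

end core

section relations

variable {K : Type*} [Field K] [CharZero K] {R : Type*} [Ring R] [Algebra K R]

theorem relations {X Y Z : R} (hxy : X * Y - Y * X = (2 : K) • X + (2 : K) • Y)
    (hyz : Y * Z - Z * Y = (2 : K) • Y + (2 : K) • Z)
    (hzx : Z * X - X * Z = (2 : K) • Z + (2 : K) • X) :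
    Y * ((2⁻¹ : K) • (Y + Z)) - ((2⁻¹ : K) • (Y + Z)) * Y = (2 : K) • ((2⁻¹ : K) • (Y + Z)) ∧
    Y * (-(2⁻¹ : K) • (X + Y)) - (-(2⁻¹ : K) • (X + Y)) * Y =
      -(2 : K) • (-(2⁻¹ : K) • (X + Y)) ∧
    ((2⁻¹ : K) • (Y + Z)) * (-(2⁻¹ : K) • (X + Y)) - (-(2⁻¹ : K) • (X + Y)) *
      ((2⁻¹ : K) • (Y + Z)) = Y := by
  have h1 : X * Y = Y * X + ((2 : K) • X + (2 : K) • Y) := by rw [← hxy]; abel
  have h2 : Y * Z = Z * Y + ((2 : K) • Y + (2 : K) • Z) := by rw [← hyz]; abel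
  have h3 : Z * X = X * Z + ((2 : K) • Z + (2 : K) • X) := by rw [← hzx]; abel
  refine ⟨?_, ?_, ?_⟩
  · simp only [mul_smul_comm, smul_mul_assoc, mul_add, add_mul, h2]
    module
  · simp only [mul_smul_comm, smul_mul_assoc, mul_add, add_mul, h1]
    module
  · simp only [mul_smul_comm, smul_mul_assoc, mul_add, add_mul, h1, h2, h3]
    module

end relations

section example_

variable (K : Type*) [Field K]

/-- The map `A`. -/
def A₀ : Matrix (Fin 4) (Fin 4) K := LB 0 3 8 15 1 1 1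

/-- The map `A^*`. -/
def B₀ : Matrix (Fin 4) (Fin 4) K := UB 0 3 8 15 (-51) (-104) (-111)

theorem A₀_root : A₀ K * (A₀ K - (3 : K) • 1) * ((A₀ K - (8 : K) • 1) * (A₀ K - (15 : K) • 1)) = 0 := by
  rw [A₀, LB_sub, LB_sub, LB_sub, LB_mul, LB_mul]
  ext i j
  fin_cases i <;> fin_cases j <;> simp [Matrix.mul_apply, Fin.sum_univ_four] <;> norm_num

theorem B₀_root : B₀ K * (B₀ K - (3 : K) • 1) * ((B₀ K - (8 : K) • 1) * (B₀ K - (15 : K) • 1)) = 0 := by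
  rw [B₀, UB_sub, UB_sub, UB_sub, UB_mul, UB_mul]
  ext i j
  fin_cases i <;> fin_cases j <;> simp [Matrix.mul_apply, Fin.sum_univ_four] <;> norm_num

end example_

section no_module

variable {K : Type*} [Field K] [LinearOrder K] [IsStrictOrderedRing K]

theorem no_module {x y z : Matrix (Fin 4) (Fin 4) K} (h : IsIrredModule x y z)
    {a0 a1 a2 a3 b0 b1 b2 b3 : K} (hA : A₀ K = a0 • 1 + a1 • x + a2 • y + a3 • (x * y))
    (hB : B₀ K = b0 • 1 + b1 • y + b2 • z + b3 • (y * z)) : False := by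
  let ι := Matrix.toLinAlgEquiv' (R := K) (n := Fin 4)
  have ιapp : ∀ (M : Matrix (Fin 4) (Fin 4) K) (v : Fin 4 → K), ι M v = M *ᵥ v := fun M v => rfl
  set X := ι x with hX
  set Y := ι y with hY
  set Z := ι z with hZ
  have hxy : X * Y - Y * X = (2 : K) • X + (2 : K) • Y := by
    rw [hX, hY, ← map_mul, ← map_mul, ← map_sub, h.xy, map_add, map_smul, map_smul]
  have hyz : Y * Z - Z * Y = (2 : K) • Y + (2 : K) • Z := by
    rw [hZ, hY, ← map_mul, ← map_mul, ← map_sub, h.yz, map_add, map_smul, map_smul]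
  have hzx : Z * X - X * Z = (2 : K) • Z + (2 : K) • X := by
    rw [hX, hZ, ← map_mul, ← map_mul, ← map_sub, h.zx, map_add, map_smul, map_smul]
  obtain ⟨he, hf, hef⟩ := relations hxy hyz hzx
  set e := (2⁻¹ : K) • (Y + Z) with hedef
  set f := -(2⁻¹ : K) • (X + Y) with hfdef
  have hZe : Z = (2 : K) • e - Y := by rw [hedef]; module
  have hXf : X = -(2 : K) • f - Y := by rw [hfdef]; module
  obtain ⟨k, u, hu, hff, hflast, he0, hee⟩ := Pool.Agent.V1117.Sl2.exists_basis he hf hef (by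
    intro W h1 h2 h3
    refine h.irred W ?_ h1 ?_
    · intro v hv
      change X v ∈ W
      rw [hXf]
      exact W.sub_mem (W.smul_mem _ (h3 v hv)) (h1 v hv)
    · intro v hv
      change Z v ∈ W
      rw [hZe]
      exact W.sub_mem (W.smul_mem _ (h2 v hv)) (h1 v hv))
  have hk : k = 3 := by
    have h1 := Module.finrank_eq_card_basis u
    rw [Module.finrank_fintype_fun_eq_card, Fintype.card_fin, Fintype.card_fin] at h1
    omega
  subst hk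
  have Y0 : Y (u 0) = (3 : K) • u 0 := by rw [hu]; congr 1; norm_num
  have Y1 : Y (u 1) = (1 : K) • u 1 := by rw [hu]; congr 1; norm_num
  have Y2 : Y (u 2) = (-1 : K) • u 2 := by rw [hu]; congr 1; norm_num
  have Y3 : Y (u 3) = (-3 : K) • u 3 := by rw [hu]; congr 1; norm_num
  have f0 : f (u 0) = u 1 := hff 0 (by norm_num)
  have f1 : f (u 1) = u 2 := hff 1 (by norm_num)
  have f2 : f (u 2) = u 3 := hff 2 (by norm_num)
  have f3 : f (u 3) = 0 := hflast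
  have e1 : e (u 1) = (3 : K) • u 0 := by
    refine (hee 0 (by norm_num)).trans ?_
    change _ • u 0 = _
    congr 1; norm_num
  have e2 : e (u 2) = (4 : K) • u 1 := by
    refine (hee 1 (by norm_num)).trans ?_
    change _ • u 1 = _
    congr 1; norm_num
  have e3 : e (u 3) = (3 : K) • u 2 := by
    refine (hee 2 (by norm_num)).trans ?_
    change _ • u 2 = _
    congr 1; norm_num
  let Φ := LinearMap.toMatrixAlgEquiv u
  have hΦtr : ∀ M : Matrix (Fin 4) (Fin 4) K, (Φ (ι M)).trace = M.trace := by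
    intro M
    have h1 := LinearMap.trace_eq_matrix_trace K u (Matrix.toLin' M)
    rw [Matrix.trace_toLin'_eq] at h1
    exact h1.symm
  have X0 : X (u 0) = (-3 : K) • u 0 + (-2 : K) • u 1 := by
    rw [hXf, LinearMap.sub_apply, LinearMap.smul_apply, f0, Y0]; module
  have X1 : X (u 1) = (-1 : K) • u 1 + (-2 : K) • u 2 := by
    rw [hXf, LinearMap.sub_apply, LinearMap.smul_apply, f1, Y1]; module
  have X2 : X (u 2) = (1 : K) • u 2 + (-2 : K) • u 3 := by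
    rw [hXf, LinearMap.sub_apply, LinearMap.smul_apply, f2, Y2]; module
  have X3 : X (u 3) = (3 : K) • u 3 := by
    rw [hXf, LinearMap.sub_apply, LinearMap.smul_apply, f3, Y3]; module
  have Z0 : Z (u 0) = (-3 : K) • u 0 := by
    rw [hZe, LinearMap.sub_apply, LinearMap.smul_apply, he0, Y0]; module
  have Z1 : Z (u 1) = (-1 : K) • u 1 + (6 : K) • u 0 := by
    rw [hZe, LinearMap.sub_apply, LinearMap.smul_apply, e1, Y1]; module
  have Z2 : Z (u 2) = (1 : K) • u 2 + (8 : K) • u 1 := by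
    rw [hZe, LinearMap.sub_apply, LinearMap.smul_apply, e2, Y2]; module
  have Z3 : Z (u 3) = (3 : K) • u 3 + (6 : K) • u 2 := by
    rw [hZe, LinearMap.sub_apply, LinearMap.smul_apply, e3, Y3]; module
  have hιA : ι (A₀ K) = a0 • 1 + a1 • X + a2 • Y + a3 • (X * Y) := by
    rw [hA, map_add, map_add, map_add, map_smul, map_smul, map_smul, map_smul, map_mul, map_one]
  have hιB : ι (B₀ K) = b0 • 1 + b1 • Y + b2 • Z + b3 • (Y * Z) := by
    rw [hB, map_add, map_add, map_add, map_smul, map_smul, map_smul, map_smul, map_mul, map_one]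
  have colA : ∀ v, ι (A₀ K) v = a0 • v + a1 • X v + a2 • Y v + a3 • X (Y v) := by
    intro v; rw [hιA]; rfl
  have colB : ∀ v, ι (B₀ K) v = b0 • v + b1 • Y v + b2 • Z v + b3 • Y (Z v) := by
    intro v; rw [hιB]; rfl
  have hΦA : Φ (ι (A₀ K)) = LB (a0 + (a2 - a1) * 3 - a3 * 9) (a0 + (a2 - a1) * 1 - a3 * 1)
      (a0 + (a2 - a1) * (-1) - a3 * 1) (a0 + (a2 - a1) * (-3) - a3 * 9)
      (-2 * (a1 + 3 * a3)) (-2 * (a1 + a3)) (-2 * (a1 - a3)) := by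
    have c0 : ι (A₀ K) (u 0) = (a0 + (a2 - a1) * 3 - a3 * 9) • u 0 +
        (-2 * (a1 + 3 * a3)) • u 1 := by
      rw [colA, Y0, map_smul, X0]; module
    have c1 : ι (A₀ K) (u 1) = (a0 + (a2 - a1) * 1 - a3 * 1) • u 1 + (-2 * (a1 + a3)) • u 2 := by
      rw [colA, Y1, map_smul, X1]; module
    have c2 : ι (A₀ K) (u 2) = (a0 + (a2 - a1) * (-1) - a3 * 1) • u 2 +
        (-2 * (a1 - a3)) • u 3 := by
      rw [colA, Y2, map_smul, X2]; module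
    have c3 : ι (A₀ K) (u 3) = (a0 + (a2 - a1) * (-3) - a3 * 9) • u 3 := by
      rw [colA, Y3, map_smul, X3]; module
    ext i j
    rw [show Φ (ι (A₀ K)) i j = u.repr (ι (A₀ K) (u j)) i from
      LinearMap.toMatrixAlgEquiv_apply u _ i j]
    fin_cases j
    · change u.repr (ι (A₀ K) (u 0)) i = _
      rw [c0]
      fin_cases i <;> simp [LB]
    · change u.repr (ι (A₀ K) (u 1)) i = _
      rw [c1]
      fin_cases i <;> simp [LB]
    · change u.repr (ι (A₀ K) (u 2)) i = _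
      rw [c2]
      fin_cases i <;> simp [LB]
    · change u.repr (ι (A₀ K) (u 3)) i = _
      rw [c3]
      fin_cases i <;> simp [LB]
  have hΦB : Φ (ι (B₀ K)) = UB (b0 + (b1 - b2) * 3 - b3 * 9) (b0 + (b1 - b2) * 1 - b3 * 1)
      (b0 + (b1 - b2) * (-1) - b3 * 1) (b0 + (b1 - b2) * (-3) - b3 * 9)
      (6 * (b2 + 3 * b3)) (8 * (b2 + b3)) (6 * (b2 - b3)) := by
    have c0 : ι (B₀ K) (u 0) = (b0 + (b1 - b2) * 3 - b3 * 9) • u 0 := by
      rw [colB, Y0, Z0, map_smul, Y0]; module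
    have c1 : ι (B₀ K) (u 1) = (b0 + (b1 - b2) * 1 - b3 * 1) • u 1 +
        (6 * (b2 + 3 * b3)) • u 0 := by
      rw [colB, Y1, Z1, map_add, map_smul, map_smul, Y0, Y1]; module
    have c2 : ι (B₀ K) (u 2) = (b0 + (b1 - b2) * (-1) - b3 * 1) • u 2 + (8 * (b2 + b3)) • u 1 := by
      rw [colB, Y2, Z2, map_add, map_smul, map_smul, Y1, Y2]; module
    have c3 : ι (B₀ K) (u 3) = (b0 + (b1 - b2) * (-3) - b3 * 9) • u 3 +
        (6 * (b2 - b3)) • u 2 := by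
      rw [colB, Y3, Z3, map_add, map_smul, map_smul, Y2, Y3]; module
    ext i j
    rw [show Φ (ι (B₀ K)) i j = u.repr (ι (B₀ K) (u j)) i from
      LinearMap.toMatrixAlgEquiv_apply u _ i j]
    fin_cases j
    · change u.repr (ι (B₀ K) (u 0)) i = _
      rw [c0]
      fin_cases i <;> simp [UB]
    · change u.repr (ι (B₀ K) (u 1)) i = _
      rw [c1]
      fin_cases i <;> simp [UB]
    · change u.repr (ι (B₀ K) (u 2)) i = _
      rw [c2]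
      fin_cases i <;> simp [UB]
    · change u.repr (ι (B₀ K) (u 3)) i = _
      rw [c3]
      fin_cases i <;> simp [UB]
  -- eigenvalues
  have rA := congrArg (fun M => Φ (ι M)) (A₀_root K)
  have rB := congrArg (fun M => Φ (ι M)) (B₀_root K)
  simp only [map_mul, map_sub, map_smul, map_one, map_zero] at rA rB
  rw [hΦA] at rA
  rw [hΦB] at rB
  obtain ⟨p0, p1, p2, p3⟩ := diag_roots _ _ _ _ _ _ _ _ _ _ rA
  obtain ⟨q0, q1, q2, q3⟩ := diag_roots' _ _ _ _ _ _ _ _ _ _ rB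
  have tA := hΦtr (A₀ K)
  have tB := hΦtr (B₀ K)
  have t1 := hΦtr (A₀ K * B₀ K)
  have t2 := hΦtr (A₀ K * A₀ K * B₀ K)
  simp only [map_mul] at t1 t2
  rw [hΦA, trace_LB, A₀, trace_LB] at tA
  rw [hΦB, trace_UB, B₀, trace_UB] at tB
  rw [hΦA, hΦB, trace1, A₀, B₀, trace1] at t1
  rw [hΦA, hΦB, trace2, A₀, B₀, trace2] at t2
  have oA := order _ _ _ _ p0 p1 p2 p3 (by linarith) (by ring)
  have oB := order _ _ _ _ q0 q1 q2 q3 (by linarith) (by ring)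
  exact core _ _ _ _ _ _ _ _ a0 a1 a2 a3 b0 b1 b2 b3 rfl rfl rfl rfl rfl rfl rfl rfl oA oB
    (by linarith) (by linarith)

end no_module

section leonard

variable {K : Type*} [Field K]

theorem conj_eq {n : ℕ} {P Q A T : Matrix (Fin n) (Fin n) K} (h1 : P * Q = 1) (h2 : Q * P = 1)
    (h : A * P = P * T) : conj (⟨P, Q, h1, h2⟩ : (Matrix (Fin n) (Fin n) K)ˣ) A = T := by
  change Q * A * P = T
  rw [mul_assoc, h, ← mul_assoc, h2, one_mul]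

/-- Tridiagonal matrices of size four. -/
def TD (d0 d1 d2 d3 u0 u1 u2 l0 l1 l2 : K) : Matrix (Fin 4) (Fin 4) K :=
  !![d0, u0, 0, 0; l0, d1, u1, 0; 0, l1, d2, u2; 0, 0, l2, d3]

theorem irred_TD {d0 d1 d2 d3 u0 u1 u2 l0 l1 l2 : K} (h0 : u0 ≠ 0) (h1 : u1 ≠ 0) (h2 : u2 ≠ 0)
    (g0 : l0 ≠ 0) (g1 : l1 ≠ 0) (g2 : l2 ≠ 0) : IrredTridiag (TD d0 d1 d2 d3 u0 u1 u2 l0 l1 l2) := by
  constructor
  · intro i j hij
    fin_cases i <;> fin_cases j <;> simp at hij <;> simp [TD]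
  · intro i j hij
    fin_cases i <;> fin_cases j <;> simp at hij <;> simpa [TD]

variable (K)

/-- Eigenvectors of `B₀`. -/
def P₁ : Matrix (Fin 4) (Fin 4) K :=
  !![1, -17, 663/5, -16354/35; 0, 1, -104/5, 962/7; 0, 0, 1, -111/7; 0, 0, 0, 1]
/-- The inverse of `P₁`. -/
def Q₁ : Matrix (Fin 4) (Fin 4) K :=
  !![1, 17, 221, 8177/5; 0, 1, 104/5, 962/5; 0, 0, 1, 111/7; 0, 0, 0, 1]
/-- Eigenvectors of `A₀`. -/
def P₂ : Matrix (Fin 4) (Fin 4) K :=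
  !![1, 0, 0, 0; -1/3, 1, 0, 0; 1/24, -1/5, 1, 0; -1/360, 1/60, -1/7, 1]
/-- The inverse of `P₂`. -/
def Q₂ : Matrix (Fin 4) (Fin 4) K :=
  !![1, 0, 0, 0; 1/3, 1, 0, 0; 1/40, 1/5, 1, 0; 1/1260, 1/84, 1/7, 1]

variable [CharZero K]

theorem PQ₁ : P₁ K * Q₁ K = 1 := by
  ext i j
  fin_cases i <;> fin_cases j <;>
    simp [P₁, Q₁, Matrix.mul_apply, Fin.sum_univ_four] <;> norm_num

theorem QP₁ : Q₁ K * P₁ K = 1 := mul_eq_one_comm.mp (PQ₁ K)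

theorem PQ₂ : P₂ K * Q₂ K = 1 := by
  ext i j
  fin_cases i <;> fin_cases j <;>
    simp [P₂, Q₂, Matrix.mul_apply, Fin.sum_univ_four] <;> norm_num

theorem QP₂ : Q₂ K * P₂ K = 1 := mul_eq_one_comm.mp (PQ₂ K)

theorem AP₁ : A₀ K * P₁ K = P₁ K * TD 17 (34/5) (107/35) (-6/7) (-17) (-91/25) (-148/49) 1 1 1 := by
  ext i j
  fin_cases i <;> fin_cases j <;>
    simp [A₀, LB, P₁, TD, Matrix.mul_apply, Fin.sum_univ_four] <;> norm_num

theorem BP₁ : B₀ K * P₁ K = P₁ K * Matrix.diagonal ![0, 3, 8, 15] := by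
  ext i j
  rw [Matrix.mul_diagonal]
  fin_cases i <;> fin_cases j <;>
    simp [B₀, UB, P₁, Matrix.mul_apply, Fin.sum_univ_four] <;> norm_num

theorem BP₂ : B₀ K * P₂ K =
    P₂ K * TD 17 (34/5) (107/35) (-6/7) (-51) (-104) (-111) (1/3) (7/200) (4/147) := by
  ext i j
  fin_cases i <;> fin_cases j <;>
    simp [B₀, UB, P₂, TD, Matrix.mul_apply, Fin.sum_univ_four] <;> norm_num

theorem AP₂ : A₀ K * P₂ K = P₂ K * Matrix.diagonal ![0, 3, 8, 15] := by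
  ext i j
  rw [Matrix.mul_diagonal]
  fin_cases i <;> fin_cases j <;>
    simp [A₀, LB, P₂, Matrix.mul_apply, Fin.sum_univ_four] <;> norm_num

theorem leonard : IsLeonardPair (A₀ K) (B₀ K) := by
  refine ⟨⟨⟨P₁ K, Q₁ K, PQ₁ K, QP₁ K⟩, ?_, ?_⟩, ⟨⟨P₂ K, Q₂ K, PQ₂ K, QP₂ K⟩, ?_, ?_⟩⟩
  · rw [conj_eq _ _ (AP₁ K)]
    apply irred_TD <;> norm_num
  · rw [conj_eq _ _ (BP₁ K)]
    exact Matrix.isDiag_diagonal _
  · rw [conj_eq _ _ (BP₂ K)]
    apply irred_TD <;> norm_num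
  · rw [conj_eq _ _ (AP₂ K)]
    exact Matrix.isDiag_diagonal _

theorem beta : BetaIsTwo (A₀ K) (B₀ K) := by
  refine ⟨⟨P₂ K, Q₂ K, PQ₂ K, QP₂ K⟩, ![0, 3, 8, 15], ?_, conj_eq _ _ (AP₂ K), ?_⟩
  · rw [conj_eq _ _ (BP₂ K)]
    apply irred_TD <;> norm_num
  · intro i h2 h3
    obtain rfl : i = 2 := by omega
    change ((0 : K) - 15) / (3 - 8) = 3
    norm_num

end leonard

/-- **`Q1` is false** over every ordered field, in particular over `ℚ` and over `ℝ`. -/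
theorem result (K : Type*) [Field K] [LinearOrder K] [IsStrictOrderedRing K] : ¬ Question K := by
  intro h
  obtain ⟨x, y, z, hm, ⟨a0, a1, a2, a3, hA⟩, ⟨b0, b1, b2, b3, hB⟩⟩ :=
    h 3 (A₀ K) (B₀ K) (leonard K) (beta K)
  exact no_module hm hA hB

end Pool.Agent.Results.MP_d63bef_al.NotEquitable
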